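import Mathlib

/-!
# The number of clusters of a finite set of vertices: second differences

For a symmetric relation `R` on `H`; linear algebra as for the edges in helper550's T1.
-/

set_option autoImplicit false

namespace Pool.Agent.H345.ON

variable {H : Type}

/-- `f` and `g` are joined by a path in `A` (or equal) -/
def Cn (R : H → H → Prop) (A : Set H) (f g : H) : Prop :=
  Relation.ReflTransGen (fun u v => R u v ∧ u ∈ A ∧ v ∈ A) f g

theorem Cn.symm {R : H → H → Prop} (hR : ∀ u v, R u v → R v u) {A : Set H} {f g : H}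
    (h : Cn R A f g) : Cn R A g f := by
  induction h with
  | refl => exact Relation.ReflTransGen.refl
  | tail _ hbc ih => exact Relation.ReflTransGen.head ⟨hR _ _ hbc.1, hbc.2.2, hbc.2.1⟩ ih

/-- the cluster of a vertex -/
def clu (R : H → H → Prop) (A : Set H) (v : H) : Set H := {u | Cn R A v u}

theorem clu_eq {R : H → H → Prop} (hR : ∀ u v, R u v → R v u) {A : Set H} {v u : H}
    (h : Cn R A v u) : clu R A v = clu R A u := by
  ext w
  exact ⟨fun hw => (Cn.symm hR h).trans hw, fun hw => h.trans hw⟩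

theorem self_mem_clu (R : H → H → Prop) (A : Set H) (v : H) : v ∈ clu R A v :=
  Relation.ReflTransGen.refl

theorem cn_of_clu {R : H → H → Prop} {A : Set H} {v u : H} (h : clu R A v = clu R A u) :
    Cn R A v u := by
  have h1 : u ∈ clu R A u := self_mem_clu R A u
  rw [← h] at h1
  exact h1

/-- a point outside of `A` is a cluster of its own -/
theorem clu_of_not_mem {R : H → H → Prop} {A : Set H} {v : H} (h : v ∉ A) : clu R A v = {v} := by
  ext w
  rw [Set.mem_singleton_iff]
  constructor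
  · intro hw
    rcases Relation.ReflTransGen.cases_head (show Relation.ReflTransGen _ v w from hw) with h1 | ⟨c, h1, -⟩
    · exact h1.symm
    · exact absurd h1.2.1 h
  · rintro rfl
    exact Relation.ReflTransGen.refl

/-- the clusters, including the points outside of `A` -/
def Cl (R : H → H → Prop) (U : Finset H) (A : Set H) : Set (Set H) := {K | ∃ v ∈ U, K = clu R A v}

theorem Cl_finite (R : H → H → Prop) (U : Finset H) (A : Set H) : (Cl R U A).Finite := by
  apply (U.finite_toSet.image (clu R A)).subset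
  rintro K ⟨v, hv, rfl⟩
  exact ⟨v, hv, rfl⟩

/-- the functions with equal values at the neighbours in `A` -/
def SA (R : H → H → Prop) (U : Finset H) (A : Set H) : Submodule ℝ (U → ℝ) where
  carrier := {f | ∀ s t, R s t → s ∈ A → t ∈ A → ∀ (h1 : s ∈ U) (h2 : t ∈ U), f ⟨s, h1⟩ = f ⟨t, h2⟩}
  add_mem' := by
    intro f g hf hg s t hst hs ht h1 h2
    rw [Pi.add_apply, Pi.add_apply, hf s t hst hs ht h1 h2, hg s t hst hs ht h1 h2]
  zero_mem' := fun _ _ _ _ _ _ _ => rfl
  smul_mem' := by
    intro c f hf s t hst hs ht h1 h2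
    rw [Pi.smul_apply, Pi.smul_apply, hf s t hst hs ht h1 h2]

theorem const {R : H → H → Prop} (U : Finset H) (A : Set H) (hA : A ⊆ ↑U)
    (f : U → ℝ) (hf : f ∈ SA R U A) (v u : H) (hv : v ∈ U) (h : Cn R A v u) :
    ∃ hu : u ∈ U, f ⟨u, hu⟩ = f ⟨v, hv⟩ := by
  induction h with
  | refl => exact ⟨hv, rfl⟩
  | tail _ hadj ih =>
    obtain ⟨hu, hfu⟩ := ih
    obtain ⟨h1, h2, h3⟩ := hadj
    exact ⟨hA h3, (hf _ _ h1 h2 h3 hu (hA h3)).symm.trans hfu⟩

/-- functions on the clusters as functions on the vertices -/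
noncomputable def phi {R : H → H → Prop} (hR : ∀ u v, R u v → R v u) (U : Finset H) (A : Set H) :
    (Cl R U A → ℝ) →ₗ[ℝ] SA R U A where
  toFun g := ⟨fun v => g ⟨clu R A v.1, ⟨v.1, v.2, rfl⟩⟩, by
    intro s t hst hs ht h1 h2
    have h3 : Cn R A s t := Relation.ReflTransGen.single ⟨hst, hs, ht⟩
    exact congrArg g (Subtype.ext (clu_eq hR h3))⟩
  map_add' g g' := rfl
  map_smul' c g := rfl

theorem phi_bij {R : H → H → Prop} (hR : ∀ u v, R u v → R v u) (U : Finset H) (A : Set H)
    (hA : A ⊆ ↑U) : Function.Bijective (phi hR U A) := by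
  constructor
  · intro g g' h
    funext K
    obtain ⟨K, v, hv, rfl⟩ := K
    exact congrFun (congrArg Subtype.val h) ⟨v, hv⟩
  · rintro ⟨f, hf⟩
    have hch : ∀ K : Cl R U A, ∃ v : U, K.1 = clu R A v.1 := by
      rintro ⟨K, v, hv, rfl⟩
      exact ⟨⟨v, hv⟩, rfl⟩
    choose w hw using hch
    refine ⟨fun K => f (w K), ?_⟩
    apply Subtype.ext
    funext v
    have h1 := hw ⟨clu R A v.1, ⟨v.1, v.2, rfl⟩⟩
    obtain ⟨hu, hfu⟩ := const U A hA f hf v.1 _ v.2 (cn_of_clu h1)
    exact hfu

theorem finrank_SA {R : H → H → Prop} (hR : ∀ u v, R u v → R v u) (U : Finset H) (A : Set H)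
    (hA : A ⊆ ↑U) : Module.finrank ℝ (SA R U A) = (Cl R U A).ncard := by
  have hfin := (Cl_finite R U A).fintype
  rw [← (LinearEquiv.ofBijective (phi hR U A) (phi_bij hR U A hA)).finrank_eq,
    Module.finrank_fintype_fun_eq_card, ← Nat.card_coe_set_eq, Nat.card_eq_fintype_card]

/-- the number of the clusters of `A` -/
noncomputable def kcG (R : H → H → Prop) (A : Finset H) : ℕ :=
  {K : Set H | ∃ v ∈ A, K = {u | Cn R ↑A v u}}.ncard

theorem ncard_Cl [DecidableEq H] {R : H → H → Prop} (U A : Finset H)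
    (hA : A ⊆ U) : (Cl R U ↑A).ncard = kcG R A + (U \ A).card := by
  have h1 : Cl R U ↑A = Cl R A ↑A ∪ (fun v => ({v} : Set H)) '' ((U \ A : Finset H) : Set H) := by
    ext K
    rw [Set.mem_union, Set.mem_image]
    constructor
    · rintro ⟨v, hv, rfl⟩
      by_cases h : v ∈ A
      · exact Or.inl ⟨v, h, rfl⟩
      · refine Or.inr ⟨v, ?_, ?_⟩
        · rw [Finset.mem_coe, Finset.mem_sdiff]
          exact ⟨hv, h⟩
        · rw [clu_of_not_mem (fun h' => h (Finset.mem_coe.1 h'))]
    · rintro (⟨v, hv, rfl⟩ | ⟨v, hv, rfl⟩)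
      · exact ⟨v, hA hv, rfl⟩
      · rw [Finset.mem_coe, Finset.mem_sdiff] at hv
        refine ⟨v, hv.1, ?_⟩
        rw [clu_of_not_mem (fun h' => hv.2 (Finset.mem_coe.1 h'))]
  have h2 : Disjoint (Cl R A ↑A) ((fun v => ({v} : Set H)) '' ((U \ A : Finset H) : Set H)) := by
    rw [Set.disjoint_left]
    rintro K ⟨v, hv, rfl⟩ ⟨w, hw, h3⟩
    rw [Finset.mem_coe, Finset.mem_sdiff] at hw
    have h4 : v ∈ clu R ↑A v := self_mem_clu R _ v
    have h5 : ({w} : Set H) = clu R ↑A v := h3
    rw [← h5, Set.mem_singleton_iff] at h4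
    exact hw.2 (h4 ▸ hv)
  rw [h1, Set.ncard_union_eq h2 (Cl_finite R A ↑A) ((Finset.finite_toSet _).image _),
    Set.ncard_image_of_injective _ Set.singleton_injective, Set.ncard_coe_finset]
  rfl

theorem second [DecidableEq H] {R : H → H → Prop} (hR : ∀ u v, R u v → R v u)
    (A : Finset H) (u v : H) (hu : u ∉ A) (hv : v ∉ A) (huv : u ≠ v) :
    kcG R (insert u A) + kcG R (insert v A) ≤ kcG R A + kcG R (insert u (insert v A)) + 1 ∧
    ((¬ R u v ∨ ∃ w ∈ A, R u w ∧ R v w) →
      kcG R (insert u A) + kcG R (insert v A) ≤ kcG R A + kcG R (insert u (insert v A))) := by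
  obtain ⟨U, hU⟩ : ∃ U : Finset H, U = insert u (insert v A) := ⟨_, rfl⟩
  have hAU : A ⊆ U := by
    rw [hU]
    exact (Finset.subset_insert v A).trans (Finset.subset_insert u _)
  have huU : u ∈ U := by rw [hU]; exact Finset.mem_insert_self _ _
  have hvU : v ∈ U := by rw [hU]; exact Finset.mem_insert_of_mem (Finset.mem_insert_self _ _)
  have hAuU : insert u A ⊆ U := Finset.insert_subset huU hAU
  have hAvU : insert v A ⊆ U := Finset.insert_subset hvU hAU
  have hcU : U.card = A.card + 2 := by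
    rw [hU, Finset.card_insert_of_notMem, Finset.card_insert_of_notMem hv]
    rw [Finset.mem_insert, not_or]
    exact ⟨huv, hu⟩
  have c0 : (U \ A).card = 2 := by
    rw [Finset.card_sdiff_of_subset hAU, hcU]
    omega
  have cu : (U \ insert u A).card = 1 := by
    rw [Finset.card_sdiff_of_subset hAuU, hcU, Finset.card_insert_of_notMem hu]
    omega
  have cv : (U \ insert v A).card = 1 := by
    rw [Finset.card_sdiff_of_subset hAvU, hcU, Finset.card_insert_of_notMem hv]
    omega
  have cU : (U \ U).card = 0 := by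
    rw [Finset.sdiff_self, Finset.card_empty]
  have d0 := finrank_SA hR U ↑A (Finset.coe_subset.2 hAU)
  have du := finrank_SA hR U ↑(insert u A) (Finset.coe_subset.2 hAuU)
  have dv := finrank_SA hR U ↑(insert v A) (Finset.coe_subset.2 hAvU)
  have dU := finrank_SA hR U ↑U subset_rfl
  rw [ncard_Cl U A hAU, c0] at d0
  rw [ncard_Cl U _ hAuU, cu] at du
  rw [ncard_Cl U _ hAvU, cv] at dv
  rw [ncard_Cl U U subset_rfl, cU] at dU
  have hdim := Submodule.finrank_sup_add_finrank_inf_eq (SA R U ↑(insert u A)) (SA R U ↑(insert v A))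
  have hsup : Module.finrank ℝ ↥(SA R U ↑(insert u A) ⊔ SA R U ↑(insert v A)) ≤
      Module.finrank ℝ (SA R U ↑A) := by
    apply Submodule.finrank_mono
    rw [sup_le_iff]
    constructor
    · intro f hf s t hst hs ht
      exact hf s t hst (Finset.mem_coe.2 (Finset.mem_insert_of_mem (Finset.mem_coe.1 hs)))
        (Finset.mem_coe.2 (Finset.mem_insert_of_mem (Finset.mem_coe.1 ht)))
    · intro f hf s t hst hs ht
      exact hf s t hst (Finset.mem_coe.2 (Finset.mem_insert_of_mem (Finset.mem_coe.1 hs)))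
        (Finset.mem_coe.2 (Finset.mem_insert_of_mem (Finset.mem_coe.1 ht)))
  -- membership in `SA U U`
  have hmem : ∀ f : U → ℝ, f ∈ SA R U ↑(insert u A) → f ∈ SA R U ↑(insert v A) →
      (R u v → f ⟨u, huU⟩ = f ⟨v, hvU⟩) → f ∈ SA R U ↑U := by
    intro f hfu hfv hfe s t hst hs ht h1 h2
    have hs' := Finset.mem_coe.1 hs
    have ht' := Finset.mem_coe.1 ht
    have key : ∀ x, x ∈ U → x = u ∨ x = v ∨ x ∈ A := by
      intro x hx
      rw [hU, Finset.mem_insert, Finset.mem_insert] at hx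
      exact hx
    have mu : ∀ x, x = u ∨ x ∈ A → x ∈ ((insert u A : Finset H) : Set H) := by
      intro x hx
      rw [Finset.mem_coe, Finset.mem_insert]
      exact hx
    have mv : ∀ x, x = v ∨ x ∈ A → x ∈ ((insert v A : Finset H) : Set H) := by
      intro x hx
      rw [Finset.mem_coe, Finset.mem_insert]
      exact hx
    rcases key s hs' with rfl | rfl | h3
    · rcases key t ht' with rfl | rfl | h4
      · rfl
      · exact hfe hst
      · exact hfu _ _ hst (mu _ (Or.inl rfl)) (mu _ (Or.inr h4)) h1 h2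
    · rcases key t ht' with rfl | rfl | h4
      · exact (hfe (hR _ _ hst)).symm
      · rfl
      · exact hfv _ _ hst (mv _ (Or.inl rfl)) (mv _ (Or.inr h4)) h1 h2
    · rcases key t ht' with rfl | rfl | h4
      · exact hfu _ _ hst (mu _ (Or.inr h3)) (mu _ (Or.inl rfl)) h1 h2
      · exact hfv _ _ hst (mv _ (Or.inr h3)) (mv _ (Or.inl rfl)) h1 h2
      · exact hfu _ _ hst (mu _ (Or.inr h3)) (mu _ (Or.inr h4)) h1 h2
  constructor
  · -- one more linear condition
    obtain ⟨ψ, hψ⟩ : ∃ ψ : (U → ℝ) →ₗ[ℝ] ℝ, ∀ f, ψ f = f ⟨u, huU⟩ - f ⟨v, hvU⟩ :=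
      ⟨LinearMap.proj ⟨u, huU⟩ - LinearMap.proj ⟨v, hvU⟩, fun f => rfl⟩
    obtain ⟨W, hW⟩ : ∃ W : Submodule ℝ (U → ℝ), W = SA R U ↑(insert u A) ⊓ SA R U ↑(insert v A) :=
      ⟨_, rfl⟩
    have h1 := Submodule.finrank_sup_add_finrank_inf_eq W (LinearMap.ker ψ)
    have h2 : Module.finrank ℝ ↥(W ⊔ LinearMap.ker ψ) ≤ Module.finrank ℝ (LinearMap.ker ψ) + 1 := by
      refine (Submodule.finrank_le _).trans ?_
      have h3 := LinearMap.finrank_range_add_finrank_ker ψ
      have h4 : Module.finrank ℝ (LinearMap.range ψ) ≤ 1 := by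
        refine (Submodule.finrank_le _).trans ?_
        rw [Module.finrank_self]
      omega
    have h5 : Module.finrank ℝ ↥(W ⊓ LinearMap.ker ψ) ≤ Module.finrank ℝ (SA R U ↑U) := by
      apply Submodule.finrank_mono
      rintro f ⟨h6, h7⟩
      rw [hW] at h6
      refine hmem f h6.1 h6.2 fun _ => ?_
      have h8 : ψ f = 0 := h7
      rw [hψ] at h8
      linarith
    rw [← hW] at hdim
    rw [← hU]
    omega
  · intro hcase
    have h5 : Module.finrank ℝ ↥(SA R U ↑(insert u A) ⊓ SA R U ↑(insert v A)) ≤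
        Module.finrank ℝ (SA R U ↑U) := by
      apply Submodule.finrank_mono
      rintro f ⟨h6, h7⟩
      refine hmem f h6 h7 fun hRuv => ?_
      rcases hcase with h8 | ⟨w, hwA, h8, h9⟩
      · exact absurd hRuv h8
      · have hwU : w ∈ U := hAU hwA
        have e1 := h6 u w h8 (Finset.mem_coe.2 (Finset.mem_insert_self _ _))
          (Finset.mem_coe.2 (Finset.mem_insert_of_mem hwA)) huU hwU
        have e2 := h7 v w h9 (Finset.mem_coe.2 (Finset.mem_insert_self _ _))
          (Finset.mem_coe.2 (Finset.mem_insert_of_mem hwA)) hvU hwU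
        rw [e1, e2]
    rw [← hU]
    omega

end Pool.Agent.H345.ON
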